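import Pool.Agent.Lib.EC78.Main

set_option autoImplicit false

namespace Pool.Agent.Lib.EC94

open Finset

/-- The graphs obtained from a member of `F` by deleting at most `j` edges. -/
noncomputable def below {n : ℕ} (F : Finset (SimpleGraph (Fin n))) (j : ℕ) :
    Finset (SimpleGraph (Fin n)) := by
  classical
  exact Finset.univ.filter fun H => ∃ G ∈ F, H ≤ G ∧ (G.edgeSet \ H.edgeSet).ncard ≤ j

/-- The graphs which are obtained from a member of `F` by deleting `j + 1` edges, but from no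
member of `F` by deleting at most `j` edges. -/
noncomputable def boundary {n : ℕ} (F : Finset (SimpleGraph (Fin n))) (j : ℕ) :
    Finset (SimpleGraph (Fin n)) := by
  classical
  exact Finset.univ.filter fun H => H ∉ below F j ∧ H ∈ below F (j + 1)

theorem mem_below {n : ℕ} {F : Finset (SimpleGraph (Fin n))} {j : ℕ} {H : SimpleGraph (Fin n)} :
    H ∈ below F j ↔ ∃ G ∈ F, H ≤ G ∧ (G.edgeSet \ H.edgeSet).ncard ≤ j := by
  classical
  simp [below]

theorem mem_boundary {n : ℕ} {F : Finset (SimpleGraph (Fin n))} {j : ℕ}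
    {H : SimpleGraph (Fin n)} : H ∈ boundary F j ↔ H ∉ below F j ∧ H ∈ below F (j + 1) := by
  classical
  simp [boundary]

section
variable {m : ℕ}

/-- the graph switched at the vertex `0` -/
def sw (G : SimpleGraph (Fin (m + 1))) : SimpleGraph (Fin m) where
  Adj p q := p ≠ q ∧ (G.Adj p.succ q.succ ↔ (G.Adj 0 p.succ ↔ G.Adj 0 q.succ))
  symm := ⟨by
    rintro p q ⟨h1, h2⟩
    refine ⟨h1.symm, ?_⟩
    rw [G.adj_comm q.succ p.succ]
    exact h2.trans iff_comm⟩
  loopless := ⟨fun p h => h.1 rfl⟩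

/-- the neighbourhood of `0` as a vector -/
noncomputable def vec (G : SimpleGraph (Fin (m + 1))) : Fin m → ZMod 2 := by
  classical
  exact fun p => if G.Adj 0 p.succ then 1 else 0

/-- extension by zero -/
def ex : (Fin m → ZMod 2) →ₗ[ZMod 2] (Fin (m + 1) → ZMod 2) where
  toFun w := Fin.cons 0 w
  map_add' u v := by
    funext i
    induction i using Fin.cases with
    | zero => simp
    | succ p => simp
  map_smul' c v := by
    funext i
    induction i using Fin.cases with
    | zero => simp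
    | succ p => simp

/-- the functional of a pair of vertices -/
def fn (a b : Fin (m + 1)) : (Fin m → ZMod 2) →ₗ[ZMod 2] ZMod 2 :=
  ((LinearMap.proj a).comp ex) + ((LinearMap.proj b).comp ex)

theorem fn_apply (a b : Fin (m + 1)) (w : Fin m → ZMod 2) :
    fn a b w = ex w a + ex w b := rfl

theorem ex_vec (G H : SimpleGraph (Fin (m + 1))) (a : Fin (m + 1)) :
    ex (vec G + vec H) a = 1 ∧ ¬ (G.Adj 0 a ↔ H.Adj 0 a) ∨
      ex (vec G + vec H) a = 0 ∧ (G.Adj 0 a ↔ H.Adj 0 a) := by
  classical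
  induction a using Fin.cases with
  | zero =>
    right
    refine ⟨rfl, ?_⟩
    simp
  | succ p =>
    have h : ex (vec G + vec H) p.succ = vec G p + vec H p := rfl
    rw [h]
    unfold vec
    by_cases h1 : G.Adj 0 p.succ <;> by_cases h2 : H.Adj 0 p.succ
    · right
      simp only [h1, h2, if_true]
      exact ⟨by decide, trivial⟩
    · left
      simp [h1, h2]
    · left
      simp [h1, h2]
    · right
      simp [h1, h2]

theorem prop_aux (a b c a' b' c' : Prop) (h : (a ↔ (b ↔ c)) ↔ (a' ↔ (b' ↔ c'))) :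
    (a ↔ a') ↔ ((b ↔ b') ↔ (c ↔ c')) := by
  by_cases ha : a <;> by_cases hb : b <;> by_cases hc : c <;> by_cases ha' : a' <;>
    by_cases hb' : b' <;> by_cases hc' : c' <;> simp_all

/-- graphs in the same class differ by a cut -/
theorem cut_of_sw {G G' : SimpleGraph (Fin (m + 1))} (h : sw G = sw G') (a b : Fin (m + 1))
    (hab : a ≠ b) : (G.Adj a b ↔ G'.Adj a b) ↔
      ((G.Adj 0 a ↔ G'.Adj 0 a) ↔ (G.Adj 0 b ↔ G'.Adj 0 b)) := by
  have h2 := G.loopless.irrefl (0 : Fin (m + 1))
  have h3 := G'.loopless.irrefl (0 : Fin (m + 1))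
  induction a using Fin.cases with
  | zero => tauto
  | succ p =>
    induction b using Fin.cases with
    | zero =>
      rw [G.adj_comm _ 0, G'.adj_comm _ 0]
      tauto
    | succ q =>
      have hpq : p ≠ q := fun h => hab (by rw [h])
      have h4 : (sw G).Adj p q ↔ (sw G').Adj p q := by rw [h]
      simp only [sw, ne_eq, hpq, not_false_eq_true, true_and] at h4
      exact prop_aux _ _ _ _ _ _ h4

/-- a graph in which all vertices are reachable has an edge leaving the set where `H` and `H'`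
differ -/
theorem exists_cross {K : SimpleGraph (Fin (m + 1))} (hK : ∀ u w, K.Reachable u w)
    (X : Set (Fin (m + 1))) (x : Fin (m + 1)) (hx : x ∈ X) (h0 : (0 : Fin (m + 1)) ∉ X) :
    ∃ a b, a ∈ X ∧ b ∉ X ∧ K.Adj a b := by
  by_contra hcon
  push Not at hcon
  refine Pool.Agent.Lib.EC78.not_reach K ∅ X (fun a ha b hb hab => absurd hab (hcon a b ha hb))
    hx h0 ?_
  rw [SimpleGraph.deleteEdges_empty]
  exact hK x 0

theorem exists_diff {H H' : SimpleGraph (Fin (m + 1))} (h : sw H = sw H') (hne : H ≠ H') :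
    ∃ x, ¬ (H.Adj 0 x ↔ H'.Adj 0 x) := by
  by_contra hcon
  push Not at hcon
  apply hne
  ext a b
  by_cases hab : a = b
  · subst hab
    simp
  · have h2 := cut_of_sw h a b hab
    exact h2.2 ⟨fun _ => hcon b, fun _ => hcon a⟩

theorem eq_of_sw {H H' : SimpleGraph (Fin (m + 1))} (h : sw H = sw H')
    (hK : ∀ u w, (H ⊓ H').Reachable u w) : H = H' := by
  by_contra hne
  obtain ⟨x, hx⟩ := exists_diff h hne
  obtain ⟨a, b, ha, hb, h5, h6⟩ := exists_cross hK {y | ¬ (H.Adj 0 y ↔ H'.Adj 0 y)} x hx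
    (by simp)
  have h7 := (cut_of_sw h a b h5.ne).1 ⟨fun _ => h6, fun _ => h5⟩
  exact ha (h7.2 (not_not.1 hb))

/-- cross intersections stay connected -/
theorem conn {r j k : ℕ} {F : Finset (SimpleGraph (Fin (m + 1)))} (hjk : j + k + 1 ≤ r)
    (hF : ∀ G ∈ F, ∀ G' ∈ F, (G ⊓ G').IsEdgeConnected r) {H H' : SimpleGraph (Fin (m + 1))}
    (hH : H ∈ below F j) (hH' : H' ∈ below F k) (u w : Fin (m + 1)) :
    (H ⊓ H').Reachable u w := by
  obtain ⟨G, hG, hle, hc⟩ := mem_below.1 hH
  obtain ⟨G', hG', hle', hc'⟩ := mem_below.1 hH'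
  have h1 : ((G.edgeSet \ H.edgeSet) ∪ (G'.edgeSet \ H'.edgeSet)).encard < r := by
    rw [← Set.Finite.cast_ncard_eq (Set.toFinite _)]
    have h2 := Set.ncard_union_le (G.edgeSet \ H.edgeSet) (G'.edgeSet \ H'.edgeSet)
    have h3 : ((G.edgeSet \ H.edgeSet) ∪ (G'.edgeSet \ H'.edgeSet)).ncard < r := by omega
    exact_mod_cast h3
  have h4 := hF G hG G' hG' u w h1
  refine h4.mono ?_
  intro a b hab
  rw [SimpleGraph.deleteEdges_adj] at hab
  obtain ⟨⟨h5, h6⟩, h7⟩ := hab
  rw [Set.mem_union, not_or, Set.mem_sdiff, Set.mem_sdiff, SimpleGraph.mem_edgeSet,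
    SimpleGraph.mem_edgeSet, SimpleGraph.mem_edgeSet, SimpleGraph.mem_edgeSet] at h7
  exact ⟨by tauto, by tauto⟩

/-- the edge which brings a boundary graph back -/
theorem exists_edge {j : ℕ} {F : Finset (SimpleGraph (Fin (m + 1)))}
    {H : SimpleGraph (Fin (m + 1))} (hH : H ∈ boundary F j) :
    ∃ a b : Fin (m + 1), ∃ K ∈ below F j, ∀ x y, K.Adj x y → ¬ H.Adj x y → s(x, y) = s(a, b) := by
  classical
  obtain ⟨h1, h2⟩ := mem_boundary.1 hH
  obtain ⟨G, hG, hle, hc⟩ := mem_below.1 h2
  have h3 : (G.edgeSet \ H.edgeSet).ncard ≠ 0 := by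
    intro h
    exact h1 (mem_below.2 ⟨G, hG, hle, by omega⟩)
  obtain ⟨e, he⟩ := Set.nonempty_of_ncard_ne_zero h3
  induction e using Sym2.ind with
  | _ a b =>
    have hab : G.Adj a b := he.1
    refine ⟨a, b, H ⊔ SimpleGraph.fromEdgeSet {s(a, b)}, mem_below.2 ⟨G, hG, ?_, ?_⟩, ?_⟩
    · refine sup_le hle ?_
      intro x y hxy
      rw [SimpleGraph.fromEdgeSet_adj, Set.mem_singleton_iff] at hxy
      have : s(x, y) ∈ G.edgeSet := by rw [hxy.1]; exact hab
      exact this
    · have h4 : G.edgeSet \ (H ⊔ SimpleGraph.fromEdgeSet {s(a, b)}).edgeSet ⊆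
          (G.edgeSet \ H.edgeSet) \ {s(a, b)} := by
        rintro e ⟨h5, h6⟩
        rw [SimpleGraph.edgeSet_sup, Set.mem_union, not_or] at h6
        refine ⟨⟨h5, h6.1⟩, fun h7 => h6.2 ?_⟩
        rw [Set.mem_singleton_iff] at h7
        rw [h7, SimpleGraph.mem_edgeSet, SimpleGraph.fromEdgeSet_adj]
        exact ⟨rfl, hab.ne⟩
      have h5 := Set.ncard_le_ncard h4 (Set.toFinite _)
      have h6 := Set.ncard_sdiff_singleton_of_mem he
      omega
    · intro x y hxy hn
      rcases hxy with h | h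
      · exact absurd h hn
      · rw [SimpleGraph.fromEdgeSet_adj, Set.mem_singleton_iff] at h
        exact h.1

/-- the returning edge crosses the cut -/
theorem fn_cross {r j : ℕ} {F : Finset (SimpleGraph (Fin (m + 1)))} (hj : 2 * j + 2 ≤ r)
    (hF : ∀ G ∈ F, ∀ G' ∈ F, (G ⊓ G').IsEdgeConnected r) {H H' K : SimpleGraph (Fin (m + 1))}
    (hH' : H' ∈ boundary F j) (hne : H ≠ H') (hsw : sw H = sw H')
    {a b : Fin (m + 1)} (hK : K ∈ below F j)
    (hab : ∀ x y, K.Adj x y → ¬ H.Adj x y → s(x, y) = s(a, b)) :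
    fn a b (vec H + vec H') = 1 := by
  have hc : ∀ u w, (K ⊓ H').Reachable u w :=
    fun u w => conn (by omega) hF hK (mem_boundary.1 hH').2 u w
  obtain ⟨x, hx⟩ := exists_diff hsw hne
  obtain ⟨y, z, hy, hz, h5, h6⟩ := exists_cross hc {y | ¬ (H.Adj 0 y ↔ H'.Adj 0 y)} x hx
    (by simp)
  have hy' : ¬ (H.Adj 0 y ↔ H'.Adj 0 y) := hy
  have hz' : H.Adj 0 z ↔ H'.Adj 0 z := not_not.1 hz
  have h7 := cut_of_sw hsw y z h5.ne
  have h8 : s(y, z) = s(a, b) := by
    refine hab y z h5 fun hH => ?_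
    exact hy' ((h7.1 ⟨fun _ => h6, fun _ => hH⟩).2 hz')
  have key : fn y z (vec H + vec H') = 1 := by
    rw [fn_apply]
    rcases ex_vec H H' y with ⟨e1, e2⟩ | ⟨e1, e2⟩
    · rcases ex_vec H H' z with ⟨e3, e4⟩ | ⟨e3, e4⟩
      · exact absurd hz' e4
      · rw [e1, e3, add_zero]
    · exact absurd e2 hy'
  rw [Sym2.eq_iff] at h8
  rcases h8 with ⟨rfl, rfl⟩ | ⟨rfl, rfl⟩
  · exact key
  · rw [fn_apply, add_comm, ← fn_apply]
    exact key

theorem card_le_of_dual {ι κ : Type} [Fintype ι] [Fintype κ] [DecidableEq ι]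
    (z : ι → κ → ZMod 2) (φ : ι → (κ → ZMod 2) →ₗ[ZMod 2] ZMod 2)
    (h : ∀ k i, φ k (z i) = if i = k then 1 else 0) : Fintype.card ι ≤ Fintype.card κ := by
  have hli : LinearIndependent (ZMod 2) z := by
    rw [Fintype.linearIndependent_iff]
    intro g hg k
    have h1 := congrArg (φ k) hg
    rw [map_sum, map_zero] at h1
    simp only [map_smul, h, smul_eq_mul, mul_ite, mul_one, mul_zero,
      Finset.sum_ite_eq', Finset.mem_univ, if_true] at h1
    simpa using h1
  have h1 := hli.fintype_card_le_finrank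
  rwa [Module.finrank_pi] at h1

/-- The graph formed by the edges `e` with `H + e` in `below F j`. -/
def ups {n : ℕ} (F : Finset (SimpleGraph (Fin n))) (j : ℕ) (H : SimpleGraph (Fin n)) :
    SimpleGraph (Fin n) where
  Adj a b := a ≠ b ∧ H ⊔ SimpleGraph.edge a b ∈ below F j
  symm := ⟨by
    rintro a b ⟨h1, h2⟩
    refine ⟨h1.symm, ?_⟩
    rw [SimpleGraph.edge_comm]
    exact h2⟩
  loopless := ⟨fun a h => h.1 rfl⟩

theorem card_fibre {r j : ℕ} {F : Finset (SimpleGraph (Fin (m + 1)))} (hj : 2 * j + 2 ≤ r)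
    (hF : ∀ G ∈ F, ∀ G' ∈ F, (G ⊓ G').IsEdgeConnected r)
    (T : Finset (SimpleGraph (Fin (m + 1)))) (hT : ∀ H ∈ T, H ∈ boundary F j)
    (hs : ∀ H ∈ T, ∀ H' ∈ T, sw H = sw H') (H₀ : SimpleGraph (Fin (m + 1))) (hH₀ : H₀ ∈ T) :
    T.card ≤ Nat.card (ups F j H₀).ConnectedComponent + 1 := by
  classical
  have hfin : Finite (ups F j H₀).ConnectedComponent := inferInstance
  have hfty : Fintype (ups F j H₀).ConnectedComponent := Fintype.ofFinite _
  rw [Nat.card_eq_fintype_card]
  have hch : ∀ H : T, ∃ a b : Fin (m + 1), ∃ K ∈ below F j,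
      ∀ x y, K.Adj x y → ¬ (H : SimpleGraph (Fin (m + 1))).Adj x y → s(x, y) = s(a, b) :=
    fun H => exists_edge (hT H.1 H.2)
  choose a b K hK hab using hch
  rcases (T.erase H₀).eq_empty_or_nonempty with hS | ⟨H₁, hH₁⟩
  · have h2 : (T.erase H₀).card = T.card - 1 := Finset.card_erase_of_mem hH₀
    rw [hS, Finset.card_empty] at h2
    omega
  let R : Finset (SimpleGraph (Fin (m + 1))) := (T.erase H₀).erase H₁
  have hRT : ∀ H ∈ R, H ∈ T := fun H hH => Finset.mem_of_mem_erase (Finset.mem_of_mem_erase hH)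
  have hR0 : ∀ H ∈ R, H ≠ H₀ := fun H hH => Finset.ne_of_mem_erase (Finset.mem_of_mem_erase hH)
  have hR1 : ∀ H ∈ R, H ≠ H₁ := fun H hH => Finset.ne_of_mem_erase hH
  have hH₁T : H₁ ∈ T := Finset.mem_of_mem_erase hH₁
  let t : R → T := fun H => ⟨H.1, hRT H.1 H.2⟩
  have hcross : ∀ H : T, ∀ H' ∈ T, H.1 ≠ H' → fn (a H) (b H) (vec H.1 + vec H') = 1 := by
    intro H H' hH' hne
    exact fn_cross hj hF (hT H' hH') hne (hs _ H.2 _ hH') (hK H) (hab H)
  -- the vectors
  let z : R → (Fin m → ZMod 2) := fun H => vec H.1 + vec H₁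
  have hdual : ∀ k i : R, fn (a (t k)) (b (t k)) (z i) = if i = k then 1 else 0 := by
    intro k i
    have h1 := hcross (t k) H₁ hH₁T (hR1 k.1 k.2)
    by_cases hik : i = k
    · rw [if_pos hik, hik]
      exact h1
    · rw [if_neg hik]
      have hne : (t k).1 ≠ i.1 := fun h => hik (Subtype.ext h.symm)
      have h2 := hcross (t k) i.1 (hRT i.1 i.2) hne
      have h3 : z i = (vec (t k).1 + vec i.1) + (vec (t k).1 + vec H₁) := by
        funext p
        change vec i.1 p + vec H₁ p = (vec k.1 p + vec i.1 p) + (vec k.1 p + vec H₁ p)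
        generalize vec i.1 p = x
        generalize vec H₁ p = y
        generalize vec k.1 p = w
        revert x y w
        decide
      rw [h3, map_add, h2, h1]
      decide
  -- they are constant on the components
  have hadj : ∀ i : R, ∀ x y, (ups F j H₀).Adj x y → ex (z i) x = ex (z i) y := by
    rintro i x y ⟨hxy, hxK⟩
    have hor : ∀ x' y', (H₀ ⊔ SimpleGraph.edge x y).Adj x' y' → ¬ H₀.Adj x' y' →
        s(x', y') = s(x, y) := by
      intro x' y' h1 h2
      rcases h1 with h1 | h1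
      · exact absurd h1 h2
      · rw [SimpleGraph.edge_adj] at h1
        rw [Sym2.eq_iff]
        exact h1.1
    have h1 := fn_cross hj hF (hT H₁ hH₁T) (Finset.ne_of_mem_erase hH₁).symm
      (hs _ hH₀ _ hH₁T) hxK hor
    have h2 := fn_cross hj hF (hT i.1 (hRT i.1 i.2)) (hR0 i.1 i.2).symm
      (hs _ hH₀ _ (hRT i.1 i.2)) hxK hor
    have h3 : z i = (vec H₀ + vec i.1) + (vec H₀ + vec H₁) := by
      funext p
      change vec i.1 p + vec H₁ p = (vec H₀ p + vec i.1 p) + (vec H₀ p + vec H₁ p)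
      generalize vec i.1 p = x
      generalize vec H₁ p = y
      generalize vec H₀ p = w
      revert x y w
      decide
    have h4 : fn x y (z i) = 0 := by
      rw [h3, map_add, h1, h2]
      decide
    rw [fn_apply] at h4
    generalize ex (z i) x = u at *
    generalize ex (z i) y = w at *
    revert u w
    decide
  have hreach : ∀ i : R, ∀ x y, (ups F j H₀).Reachable x y → ex (z i) x = ex (z i) y := by
    rintro i x y ⟨p⟩
    induction p with
    | nil => rfl
    | cons h _ ih => exact (hadj i _ _ h).trans ih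
  -- the count
  have hcard : Fintype.card (Option R) ≤
      Fintype.card (ups F j H₀).ConnectedComponent := by
    let zz : Option R → (ups F j H₀).ConnectedComponent → ZMod 2 := fun o c =>
      match o with
      | none => 1
      | some i => ex (z i) c.out
    let pr : (ups F j H₀).ConnectedComponent →
        (((ups F j H₀).ConnectedComponent → ZMod 2) →ₗ[ZMod 2] ZMod 2) :=
      fun c => LinearMap.proj c
    let φ : Option R → (((ups F j H₀).ConnectedComponent → ZMod 2) →ₗ[ZMod 2] ZMod 2) :=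
      fun o => match o with
      | none => pr ((ups F j H₀).connectedComponentMk 0)
      | some k => pr ((ups F j H₀).connectedComponentMk (a (t k))) +
          pr ((ups F j H₀).connectedComponentMk (b (t k)))
    refine card_le_of_dual zz φ ?_
    have hout : ∀ (i : R) (x : Fin (m + 1)),
        ex (z i) ((ups F j H₀).connectedComponentMk x).out = ex (z i) x := by
      intro i x
      apply hreach
      exact SimpleGraph.ConnectedComponent.exact (Quot.out_eq _)
    rintro (_ | k) (_ | i)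
    · rw [if_pos rfl]
      rfl
    · simp only [reduceCtorEq, if_false]
      change ex (z i) ((ups F j H₀).connectedComponentMk 0).out = 0
      rw [hout]
      rfl
    · simp only [reduceCtorEq, if_false]
      change (1 : ZMod 2) + 1 = 0
      decide
    · change ex (z i) ((ups F j H₀).connectedComponentMk (a (t k))).out +
        ex (z i) ((ups F j H₀).connectedComponentMk (b (t k))).out = _
      rw [hout, hout, ← fn_apply, hdual]
      simp
  rw [Fintype.card_option, Fintype.card_coe] at hcard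
  have h2 : (T.erase H₀).card = T.card - 1 := Finset.card_erase_of_mem hH₀
  have h3 : R.card = (T.erase H₀).card - 1 := Finset.card_erase_of_mem hH₁
  have h4 : 0 < (T.erase H₀).card := Finset.card_pos.2 ⟨H₁, hH₁⟩
  omega

theorem main_odd {r j : ℕ} (F : Finset (SimpleGraph (Fin (m + 1)))) (hj : 2 * j + 1 ≤ r)
    (hF : ∀ G ∈ F, ∀ G' ∈ F, (G ⊓ G').IsEdgeConnected r) :
    (below F j).card ≤ 2 ^ m.choose 2 := by
  classical
  have h1 : (below F j).card = ((below F j).image sw).card := by
    refine (Finset.card_image_of_injOn ?_).symm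
    intro H hH H' hH' h
    exact eq_of_sw h fun u w => conn (by omega) hF hH hH' u w
  rw [h1]
  exact Pool.Agent.Lib.EC78.card_graph m _

theorem main_even {r j : ℕ} (F : Finset (SimpleGraph (Fin (m + 1)))) (hj : 2 * j + 2 ≤ r)
    (hF : ∀ G ∈ F, ∀ G' ∈ F, (G ⊓ G').IsEdgeConnected r) :
    ((below F j).card : ℚ) + ∑ H ∈ boundary F j,
      1 / ((Nat.card (ups F j H).ConnectedComponent : ℚ) + 1) ≤ 2 ^ m.choose 2 := by
  classical
  have h1 : ((below F j).image sw).card = (below F j).card := by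
    refine Finset.card_image_of_injOn ?_
    intro H hH H' hH' h
    exact eq_of_sw h fun u w => conn (by omega) hF hH hH' u w
  have h2 : ∑ H ∈ boundary F j, 1 / ((Nat.card (ups F j H).ConnectedComponent : ℚ) + 1) ≤
      ((boundary F j).image sw).card := by
    rw [← Finset.sum_fiberwise_of_maps_to (fun H hH => Finset.mem_image_of_mem sw hH)]
    refine (Finset.sum_le_card_nsmul _ _ 1 ?_).trans_eq (by simp)
    intro c hc
    set T := (boundary F j).filter (fun H => sw H = c) with hT
    have hTc : 0 < T.card := by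
      obtain ⟨H, hH, hHc⟩ := Finset.mem_image.1 hc
      exact Finset.card_pos.2 ⟨H, Finset.mem_filter.2 ⟨hH, hHc⟩⟩
    have hTc' : (0 : ℚ) < T.card := by exact_mod_cast hTc
    have h3 : ∀ H ∈ T, 1 / ((Nat.card (ups F j H).ConnectedComponent : ℚ) + 1) ≤
        1 / (T.card : ℚ) := by
      intro H hH
      refine one_div_le_one_div_of_le hTc' ?_
      have := card_fibre hj hF T (fun H hH => (Finset.mem_filter.1 hH).1)
        (fun H hH H' hH' => by
          rw [(Finset.mem_filter.1 hH).2, (Finset.mem_filter.1 hH').2]) H hH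
      exact_mod_cast this
    calc ∑ H ∈ T, 1 / ((Nat.card (ups F j H).ConnectedComponent : ℚ) + 1)
        ≤ ∑ H ∈ T, 1 / (T.card : ℚ) := Finset.sum_le_sum h3
      _ = 1 := by
        rw [Finset.sum_const, nsmul_eq_mul, mul_one_div, div_self hTc'.ne']
  have h3 : Disjoint ((below F j).image sw) ((boundary F j).image sw) := by
    rw [Finset.disjoint_left]
    intro c hc hc'
    obtain ⟨H, hH, rfl⟩ := Finset.mem_image.1 hc
    obtain ⟨H', hH', h⟩ := Finset.mem_image.1 hc'
    have h4 : H = H' := eq_of_sw h.symm fun u w =>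
      conn (by omega) hF hH (mem_boundary.1 hH').2 u w
    exact (mem_boundary.1 hH').1 (h4 ▸ hH)
  have h4 := Finset.card_union_of_disjoint h3
  have h5 := Pool.Agent.Lib.EC78.card_graph m ((below F j).image sw ∪ (boundary F j).image sw)
  rw [h4, h1] at h5
  have h6 : ((below F j).card : ℚ) + ((boundary F j).image sw).card ≤ 2 ^ m.choose 2 := by
    exact_mod_cast h5
  linarith

end

end Pool.Agent.Lib.EC94
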